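import Pool.Agent.N132.IX.StmDefs
import Pool.Agent.N944.IX.L2
import Pool.Agent.Y133.Half.Chain

/-!
# One step of a composition series (project IX, L3)
-/

open CategoryTheory AlgebraicGeometry

universe u v w

namespace Pool.Agent.N316.IX

open Module
open Pool.Agent.H914 Pool.Agent.H914.VarClass Pool.Agent.H914.VarClass.Obj
  Pool.Agent.H914.WeilCohomology Pool.Agent.W492.BB Pool.Agent.W550.Corr Pool.Agent.Y133.Half
open Pool.Agent.N132.IX

variable {k : Type u} [Field k] {𝒱 : VarClass k} {ops : CycleOps 𝒱}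
  {W : WeilCohomology.{u, v} ops} {X Y Z P Q V : 𝒱.Obj}

/-- The algebra of the operators of a system. -/
noncomputable def opAlg (S : Sys W) (P : 𝒱.Obj) : Subalgebra W.K (Module.End W.K (W.H P)) where
  carrier := {x | x ∈ S.Op P P}
  mul_mem' := fun ha hb => Sys.Op.comp ha hb
  one_mem' := Sys.Op.id
  add_mem' := fun ha hb => (S.Op P P).add_mem ha hb
  zero_mem' := (S.Op P P).zero_mem
  algebraMap_mem' := fun r => by
    rw [Algebra.algebraMap_eq_smul_one]
    exact (S.Op P P).smul_mem _ Sys.Op.id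

lemma mem_opAlg {S : Sys W} {P : 𝒱.Obj} {x : Module.End W.K (W.H P)} :
    x ∈ opAlg S P ↔ x ∈ S.Op P P := Iff.rfl

/-- dimension of a sum of subspaces -/
lemma finrank_sup' {K V : Type*} [Field K] [AddCommGroup V] [Module K V] [FiniteDimensional K V]
    (U R : Submodule K V) :
    finrank K (U ⊔ R : Submodule K V) = finrank K U + finrank K (R.map U.mkQ) := by
  have h0 : (U ⊔ R : Submodule K V).map U.mkQ = R.map U.mkQ := by
    rw [Submodule.map_sup, Submodule.mkQ_map_self, bot_sup_eq]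
  have h1 := LinearMap.finrank_range_add_finrank_ker (U.mkQ.domRestrict (U ⊔ R))
  rw [LinearMap.range_domRestrict, h0] at h1
  rw [← h1, add_comm (finrank K U)]
  congr 1
  have h2 : LinearMap.ker (U.mkQ.domRestrict (U ⊔ R)) = U.submoduleOf (U ⊔ R) := by
    ext x
    simp [Submodule.submoduleOf]
  rw [h2]
  have h3 : U ≤ U ⊔ R := le_sup_left
  exact (Submodule.submoduleOfEquivOfLe h3).finrank_eq

/-- maps with the same kernel have the same rank -/
lemma finrank_range_eq {K V A B : Type*} [Field K] [AddCommGroup V] [Module K V]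
    [AddCommGroup A] [Module K A] [AddCommGroup B] [Module K B] (f : V →ₗ[K] A) (g : V →ₗ[K] B)
    (h : LinearMap.ker f = LinearMap.ker g) :
    finrank K (LinearMap.range f) = finrank K (LinearMap.range g) := by
  rw [← f.quotKerEquivRange.finrank_eq, ← g.quotKerEquivRange.finrank_eq]
  exact (Submodule.quotEquivOfEq _ _ h).finrank_eq

variable (C : CycleTheory.{u, v, w} W)

/-- The operator of a correspondence, in the algebra of operators. -/
noncomputable def rhoE (P : 𝒱.Obj) : C.A (P.prod P) →ₗ[W.K] (opAlg C.S P) where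
  toFun Γ := ⟨C.rho P P Γ, C.rho_mem Γ⟩
  map_add' _ _ := Subtype.ext (map_add _ _ _)
  map_smul' _ _ := Subtype.ext (map_smul _ _ _)

/-- The operator of a correspondence, in the space of operators. -/
noncomputable def rhoS (P Q : 𝒱.Obj) : C.A (P.prod Q) →ₗ[W.K] (C.S.Op P Q) where
  toFun Γ := ⟨C.rho P Q Γ, C.rho_mem Γ⟩
  map_add' _ _ := Subtype.ext (map_add _ _ _)
  map_smul' _ _ := Subtype.ext (map_smul _ _ _)

lemma rhoE_range (P : 𝒱.Obj) : LinearMap.range (rhoE C P) = ⊤ := by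
  rw [LinearMap.range_eq_top]
  rintro ⟨u, hu⟩
  obtain ⟨Γ, hΓ⟩ := C.exists_rho hu
  exact ⟨Γ, Subtype.ext hΓ⟩

lemma rhoS_range (P Q : 𝒱.Obj) : LinearMap.range (rhoS C P Q) = ⊤ := by
  rw [LinearMap.range_eq_top]
  rintro ⟨u, hu⟩
  obtain ⟨Γ, hΓ⟩ := C.exists_rho hu
  exact ⟨Γ, Subtype.ext hΓ⟩

lemma exists_sec (P : 𝒱.Obj) : ∃ s : opAlg C.S P →ₗ[W.K] C.A (P.prod P),
    ∀ x : opAlg C.S P, C.rho P P (s x) = (x : Module.End W.K (W.H P)) := by
  have : Module.Free W.K (opAlg C.S P) := Module.Free.of_divisionRing W.K (opAlg C.S P)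
  obtain ⟨s, hs⟩ := LinearMap.exists_rightInverse_of_surjective (rhoE C P) (rhoE_range C P)
  refine ⟨s, fun x => ?_⟩
  exact congrArg (fun f : opAlg C.S P →ₗ[W.K] opAlg C.S P =>
    ((f x : opAlg C.S P) : Module.End W.K (W.H P))) hs

end Pool.Agent.N316.IX

namespace Pool.Agent.N132.IX

open Module Filter Topology
open Pool.Agent.H914 Pool.Agent.H914.VarClass Pool.Agent.H914.VarClass.Obj
  Pool.Agent.H914.WeilCohomology Pool.Agent.W492.BB Pool.Agent.W550.Corr Pool.Agent.Y133.Half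
open Pool.Agent.N316.IX

variable {k : Type u} [Field k] {𝒱 : VarClass k} {ops : CycleOps 𝒱}
  {W : WeilCohomology.{u, v} ops} {X Y Z P Q V : 𝒱.Obj}

variable (C : CycleTheory.{u, v, w} W)

/-- IX/L3. One step of a composition series. -/
theorem step (X : 𝒱.Obj) (hfin : ∀ n, Module.Finite W.K (C.A (pw X n)))
    (hN : ∀ n, C.S.Num (pw X n) = ⊥) {G' G : ∀ n, Submodule W.K (C.A (pw X n))}
    (hG' : Stab C X G') (hG : Stab C X G) (hle : ∀ n, G' n ≤ G n)
    (h0 : ∀ (m n : ℕ) (Γ : C.A ((pw X m).prod (pw X n))), C.cl _ Γ = 0 → ∀ y ∈ G m,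
      C.act Γ y ∈ G' n) {m : ℕ} {y : C.A (pw X m)} (hy : y ∈ G m) (hy' : y ∉ G' m) :
    ∃ g ∈ C.S.Op (pw X m) (pw X m), g ∘ₗ g = g ∧ g ≠ 0 ∧
      ∃ G'' : ∀ n, Submodule W.K (C.A (pw X n)), Stab C X G'' ∧ (∀ n, G' n ≤ G'' n) ∧
        (∀ n, G'' n ≤ G n) ∧ ∀ n, finrank W.K (G'' n) =
          finrank W.K (G' n) + C.S.r (pw X m) g (pw X n) := by
  classical
  -- the key remark
  have star : ∀ (n : ℕ) (Γ Γ' : C.A ((pw X m).prod (pw X n))),
      C.rho _ _ Γ = C.rho _ _ Γ' → ∀ a ∈ G m, C.act Γ a - C.act Γ' a ∈ G' n := by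
    intro n Γ Γ' h a ha
    rw [← C.act_sub]
    refine h0 m n _ ?_ a ha
    rw [← C.rho_eq_zero, map_sub, h, sub_self]
  obtain ⟨s, hs'⟩ := exists_sec C (pw X m)
  let α : opAlg C.S (pw X m) →ₗ[W.K] C.A (pw X m) →ₗ[W.K] C.A (pw X m) :=
    (actB C.toTheoryData) ∘ₗ s
  have hα : ∀ (x : opAlg C.S (pw X m)) (a : C.A (pw X m)), α x a = C.act (s x) a :=
    fun x a => rfl
  obtain ⟨g, hgg, z, hz, hz', hgz, key⟩ := abs_step (opAlg C.S (pw X m))
    (par (W.isInternal (pw X m))) (fun x hx => (Sys.Op.ev (mem_opAlg.1 hx)).par_comm) α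
    (fun x a ha => hG' m m _ a ha) (fun x a ha => hG m m _ a ha)
    (fun a ha => by
      have h1 := star m (s 1) (dg C.toTheoryData (pw X m)) (by
        rw [hs', C.rho_dg]; rfl) a ha
      rwa [act_dg] at h1)
    (fun x y a ha => by
      have h1 := star m (s (x * y)) (C.comp (s y) (s x)) (by
        rw [hs', C.rho_comp, hs', hs']; rfl) a ha
      rwa [C.act_comp] at h1) ⟨y, hy, hy'⟩
  have hgO : (g : Module.End W.K (W.H (pw X m))) ∈ C.S.Op (pw X m) (pw X m) := g.2
  have hgg' : (g : Module.End W.K (W.H (pw X m))) ∘ₗ (g : Module.End W.K (W.H (pw X m))) = g :=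
    congrArg Subtype.val hgg
  refine ⟨g, hgO, hgg', ?_, fun n => G' n ⊔ LinearMap.range ((actB C.toTheoryData).flip z), ?_,
    fun n => le_sup_left, ?_, ?_⟩
  · intro h
    have h1 : g = 0 := Subtype.ext h
    rw [h1, map_zero, LinearMap.zero_apply, zero_sub] at hgz
    exact hz' ((Submodule.neg_mem_iff _).1 hgz)
  · intro a b Γ x hx
    obtain ⟨x1, hx1, x2, ⟨Δ, rfl⟩, rfl⟩ := Submodule.mem_sup.1 hx
    rw [act_map_add]
    refine Submodule.add_mem_sup (hG' _ _ _ _ hx1) ⟨C.comp Δ Γ, ?_⟩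
    exact C.act_comp Δ Γ z
  · intro n
    refine sup_le (hle n) ?_
    rintro _ ⟨Δ, rfl⟩
    exact hG m n Δ z hz
  · intro n
    have hfn := hfin n
    rw [finrank_sup']
    congr 1
    rw [← LinearMap.range_comp]
    have h1 : C.S.r (pw X m) g (pw X n) =
        finrank W.K (LinearMap.range ((C.S.BO (pw X m) (pw X n) g LinearMap.id).flip ∘ₗ
          rhoS C (pw X m) (pw X n))) := by
      rw [LinearMap.range_comp_of_range_eq_top _ (rhoS_range C _ _), ← C.S.rk_BO_r (Sys.Op.ev hgO),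
        ← rk_flip, rk]
    rw [h1]
    apply finrank_range_eq
    ext Γ
    rw [LinearMap.mem_ker, LinearMap.mem_ker]
    have e1 : ((G' n).mkQ ∘ₗ (actB C.toTheoryData).flip z) Γ = 0 ↔ C.act Γ z ∈ G' n := by
      rw [LinearMap.comp_apply, Submodule.mkQ_apply, Submodule.Quotient.mk_eq_zero]
      rfl
    rw [e1]
    constructor
    · intro h
      apply LinearMap.ext
      intro u
      rw [LinearMap.comp_apply, LinearMap.flip_apply, Sys.BO_apply, LinearMap.id_comp,
        LinearMap.zero_apply]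
      obtain ⟨Δ, hΔ⟩ := C.exists_rho u.2
      have h2 : C.rho (pw X m) (pw X m) (C.comp Γ Δ) ∈ opAlg C.S (pw X m) := C.rho_mem _
      have h3 := key ⟨_, h2⟩ (by
        rw [hα]
        have h4 := star m (s ⟨_, h2⟩) (C.comp Γ Δ) (hs' _) z hz
        have h5 : C.act (C.comp Γ Δ) z ∈ G' m := by
          rw [C.act_comp]
          exact hG' n m Δ _ h
        have h6 := Submodule.add_mem _ h4 h5
        rwa [sub_add_cancel] at h6)
      have h7 : C.rho (pw X m) (pw X m) (C.comp Γ Δ) =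
        C.rho (pw X n) (pw X m) Δ ∘ₗ C.rho (pw X m) (pw X n) Γ := C.rho_comp Γ Δ
      have h8 : LinearMap.trace W.K (W.H (pw X m)) (par (W.isInternal (pw X m)) *
          (g : Module.End W.K (W.H (pw X m))) * C.rho (pw X m) (pw X m) (C.comp Γ Δ)) = 0 := h3
      rw [h7] at h8
      rw [← hΔ]
      exact h8
    · intro h
      have h2 : ∀ u ∈ C.S.Op (pw X n) (pw X m), LinearMap.trace W.K (W.H (pw X m))
          (par (W.isInternal (pw X m)) ∘ₗ (g : Module.End W.K (W.H (pw X m))) ∘ₗ u ∘ₗ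
            C.rho (pw X m) (pw X n) Γ) = 0 := by
        intro u hu
        exact congrArg (fun f : C.S.Op (pw X n) (pw X m) →ₗ[W.K] W.K => f ⟨u, hu⟩) h
      have h3 : C.cl _ (C.comp (s g) Γ) ∈ C.S.Num ((pw X m).prod (pw X n)) := by
        refine ⟨C.cl_mem_S _, fun d hd => ?_⟩
        have h4 := trace_corr_corr (W := W) (C.cl _ (C.comp (s g) Γ))
          (W.map (swap (pw X n) (pw X m)) d)
        rw [swap_swap] at h4
        rw [← h4]
        have h5 : W.corr (C.cl _ (C.comp (s g) Γ)) = C.rho (pw X m) (pw X n) Γ ∘ₗ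
            (g : Module.End W.K (W.H (pw X m))) := by
          rw [← hs' g]
          exact C.rho_comp (s g) Γ
        have h6 := (Sys.Op.ev (C.rho_mem Γ)).par_comm
        have h7 := h2 _ (Sys.Op.corr (C.S.map (swap (pw X n) (pw X m)) hd))
        rw [h5, LinearMap.comp_assoc, ← LinearMap.comp_assoc _ (C.rho (pw X m) (pw X n) Γ), h6,
          LinearMap.comp_assoc, LinearMap.trace_comp_comm', ← h7]
        rfl
      have h4 : C.cl _ (C.comp (s g) Γ) = 0 := by
        have h5 := Sys.Num.map (pwAdd X m n).inv h3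
        rw [hN, Submodule.mem_bot] at h5
        have h6 : W.map (pwAdd X m n).hom (W.map (pwAdd X m n).inv
            (C.cl _ (C.comp (s g) Γ))) = C.cl _ (C.comp (s g) Γ) := by
          rw [← W.map_comp, (pwAdd X m n).hom_inv_id, W.map_id]
        rw [← h6, h5, map_zero]
      have h5 := h0 m n _ h4 z hz
      rw [C.act_comp] at h5
      have h6 := hG' m n Γ _ hgz
      rw [hα, act_map_sub] at h6
      have h7 := Submodule.sub_mem _ h5 h6
      rwa [sub_sub_cancel] at h7

end Pool.Agent.N132.IX
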